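import Pool.Agent.Lib_helper24.AVM.TU
import Pool.Agent.Lib_helper39.AVM.ES
import Pool.Agent.Lib_helper87.PQ.BIL

/-!
# Project AVM (MP_05dcdc_nt), block BB: bilinear sums over tuples
-/

set_option autoImplicit false

namespace Pool.Agent.AVM

open Finset Filter Topology Pool.Agent.PQ Pool.Agent.GL

/-- a permutation which moves `i` to `0` and `j` to `1` -/
theorem BB_perm (n : ℕ) (i j : Fin (n + 2)) (hij : i ≠ j) :
    ∃ σ : Equiv.Perm (Fin (n + 2)), σ i = 0 ∧ σ j = 1 := by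
  refine ⟨(Equiv.swap i 0).trans (Equiv.swap (Equiv.swap i 0 j) 1), ?_, ?_⟩
  · rw [Equiv.trans_apply, Equiv.swap_apply_left]
    apply Equiv.swap_apply_of_ne_of_ne
    · intro h
      apply hij
      have : Equiv.swap i 0 i = Equiv.swap i 0 j := by rw [Equiv.swap_apply_left]; exact h
      exact (Equiv.swap i 0).injective this
    · intro h
      have := congrArg Fin.val h
      simp at this
  · rw [Equiv.trans_apply, Equiv.swap_apply_left]

/-- the number of the tuples, with a weaker bound and also for `n = 0` -/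
theorem BB_card (n : ℕ) : ∃ C : ℝ, 0 < C ∧ ∃ X₀ : ℕ, ∀ X : ℕ, X₀ ≤ X →
    ((Tup n X).card : ℝ) ≤ C * LL n X := by
  have hL : Tendsto (fun X : ℕ => Real.log (X : ℝ)) atTop atTop :=
    Real.tendsto_log_atTop.comp tendsto_natCast_atTop_atTop
  have hLL : Tendsto (fun X : ℕ => Real.log (Real.log (X : ℝ))) atTop atTop :=
    Real.tendsto_log_atTop.comp hL
  obtain ⟨X₂, hX₂⟩ := eventually_atTop.1 ((hL.eventually_ge_atTop 1).and (hLL.eventually_ge_atTop 1))
  cases n with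
  | zero =>
    refine ⟨1, one_pos, max X₂ 1, fun X hX => ?_⟩
    obtain ⟨h1, h2⟩ := hX₂ X ((le_max_left _ _).trans hX)
    have hX1 : (1 : ℝ) ≤ X := by exact_mod_cast (le_max_right _ _).trans hX
    have hc : (Tup 0 X).card ≤ 1 := Finset.card_le_one.2 fun a _ b _ => Subsingleton.elim a b
    have hc' : ((Tup 0 X).card : ℝ) ≤ 1 := by exact_mod_cast hc
    refine hc'.trans ?_
    unfold LL
    rw [one_mul, pow_zero, mul_one, le_div_iff₀ (by linarith), one_mul]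
    have := Real.log_le_sub_one_of_pos (show (0 : ℝ) < X by linarith)
    linarith
  | succ n =>
    obtain ⟨C, hC, X₁, hX₁⟩ := tup_card n
    refine ⟨C, hC, max X₁ X₂, fun X hX => ?_⟩
    obtain ⟨h1, h2⟩ := hX₂ X ((le_max_right _ _).trans hX)
    refine (hX₁ X ((le_max_left _ _).trans hX)).trans ?_
    apply mul_le_mul_of_nonneg_left _ hC.le
    unfold LL
    apply div_le_div_of_nonneg_right _ (by linarith)
    apply mul_le_mul_of_nonneg_left _ (Nat.cast_nonneg _)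
    rw [pow_succ]
    exact le_mul_of_one_le_right (pow_nonneg (by linarith) _) h2

theorem BB_trivial (Y : ℕ) (f : ℕ → ℕ → ℂ) (hf : ∀ p q, ‖f p q‖ ≤ 1) :
    ‖∑ p ∈ prm Y, ∑ q ∈ prm (Y / p), f p q‖ ≤ (Y : ℝ) * Y := by
  have hc : ∀ Z : ℕ, ((prm Z).card : ℝ) ≤ Z := by
    intro Z
    have h1 : (prm Z).card ≤ (Icc 1 Z).card := Finset.card_le_card (Finset.filter_subset _ _)
    rw [Nat.card_Icc, Nat.add_sub_cancel] at h1
    exact_mod_cast h1
  calc ‖∑ p ∈ prm Y, ∑ q ∈ prm (Y / p), f p q‖ ≤ ∑ p ∈ prm Y, ‖∑ q ∈ prm (Y / p), f p q‖ := norm_sum_le _ _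
    _ ≤ ∑ p ∈ prm Y, (Y : ℝ) := by
        apply Finset.sum_le_sum
        intro p _
        calc ‖∑ q ∈ prm (Y / p), f p q‖ ≤ ∑ q ∈ prm (Y / p), ‖f p q‖ := norm_sum_le _ _
          _ ≤ ∑ q ∈ prm (Y / p), (1 : ℝ) := Finset.sum_le_sum fun q _ => hf p q
          _ = ((prm (Y / p)).card : ℝ) := by rw [Finset.sum_const, nsmul_eq_mul, mul_one]
          _ ≤ ((Y / p : ℕ) : ℝ) := hc _
          _ ≤ Y := by exact_mod_cast Nat.div_le_self _ _
    _ = ((prm Y).card : ℝ) * Y := by rw [Finset.sum_const, nsmul_eq_mul]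
    _ ≤ (Y : ℝ) * Y := mul_le_mul_of_nonneg_right (hc _) (Nat.cast_nonneg _)

theorem bb (n : ℕ) (i j : Fin (n + 2)) (hij : i ≠ j) (ε : ℝ) (hε : 0 < ε) : ∃ X₀ : ℕ, ∀ X : ℕ, X₀ ≤ X →
    ∀ (χ : (p : ℕ) → DirichletCharacter ℂ p) (a b : (Fin (n + 2) → ℕ) → ℂ),
    (∀ u, ‖a u‖ ≤ 1) → (∀ u, ‖b u‖ ≤ 1) →
    (∀ u, (u i).Prime → a (Function.update u j 0) ≠ 0 → χ (u i) ≠ 1) →
    ‖∑ u ∈ Tup (n + 2) X, a (Function.update u j 0) * b (Function.update u i 0) * χ (u i) (u j : ZMod (u i))‖ ≤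
      ε * LL (n + 1) X := by
  obtain ⟨σ, hσi, hσj⟩ := BB_perm n i j hij
  obtain ⟨C₁, hC₁, X₁, h₁⟩ := tup_conv n
  obtain ⟨C₂, hC₂, X₂, h₂⟩ := BB_card n
  obtain ⟨Y₁, hY₁⟩ := bil (ε / (2 * C₁)) (by positivity)
  set Y₀ := max Y₁ 16 with hY₀
  have hL : Tendsto (fun X : ℕ => Real.log (X : ℝ)) atTop atTop :=
    Real.tendsto_log_atTop.comp tendsto_natCast_atTop_atTop
  have hLL : Tendsto (fun X : ℕ => Real.log (Real.log (X : ℝ))) atTop atTop :=
    Real.tendsto_log_atTop.comp hL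
  obtain ⟨X₃, h₃⟩ := eventually_atTop.1 ((hL.eventually_ge_atTop 1).and
    ((hLL.eventually_ge_atTop 0).and (hLL.eventually_ge_atTop ((Y₀ : ℝ) * Y₀ * C₂ / (ε / 2)))))
  refine ⟨max X₁ (max X₂ X₃), fun X hX χ a b ha hb hχ => ?_⟩
  have hX1 : X₁ ≤ X := (le_max_left _ _).trans hX
  have hX2 : X₂ ≤ X := (le_max_left _ _).trans ((le_max_right _ _).trans hX)
  have hX3 : X₃ ≤ X := (le_max_right _ _).trans ((le_max_right _ _).trans hX)
  obtain ⟨hl1, hll0, hll⟩ := h₃ X hX3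
  have hc1 := h₁ X hX1
  have hc2 := h₂ X hX2
  rw [tup_perm (n + 2) X σ, tup_two]
  -- the coefficients
  set α : (Fin n → ℕ) → ℕ → ℂ := fun w p =>
    a (fun l => (Fin.cons p (Fin.cons 0 w : Fin (n + 1) → ℕ) : Fin (n + 2) → ℕ) (σ l)) with hα
  set β : (Fin n → ℕ) → ℕ → ℂ := fun w q =>
    b (fun l => (Fin.cons 0 (Fin.cons q w : Fin (n + 1) → ℕ) : Fin (n + 2) → ℕ) (σ l)) with hβ
  have e0 : ∀ (w : Fin n → ℕ) (p q : ℕ),
      (Fin.cons p (Fin.cons q w : Fin (n + 1) → ℕ) : Fin (n + 2) → ℕ) 0 = p := fun w p q => rfl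
  have e1 : ∀ (w : Fin n → ℕ) (p q : ℕ),
      (Fin.cons p (Fin.cons q w : Fin (n + 1) → ℕ) : Fin (n + 2) → ℕ) 1 = q := fun w p q => rfl
  have ej : ∀ (w : Fin n → ℕ) (p q : ℕ),
      Function.update (fun l => (Fin.cons p (Fin.cons q w : Fin (n + 1) → ℕ) : Fin (n + 2) → ℕ) (σ l)) j 0 =
        fun l => (Fin.cons p (Fin.cons 0 w : Fin (n + 1) → ℕ) : Fin (n + 2) → ℕ) (σ l) := by
    intro w p q
    funext l
    by_cases hl : l = j
    · subst hl
      rw [Function.update_self, hσj, e1]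
    · rw [Function.update_of_ne hl]
      have hl1 : σ l ≠ 1 := fun h => hl (σ.injective (h.trans hσj.symm))
      revert hl1
      generalize σ l = m
      intro hm
      refine Fin.cases ?_ (fun m' => ?_) m hm
      · intro _; rfl
      · refine Fin.cases ?_ (fun m'' => ?_) m'
        · intro h; exact absurd rfl h
        · intro _; rfl
  have ei : ∀ (w : Fin n → ℕ) (p q : ℕ),
      Function.update (fun l => (Fin.cons p (Fin.cons q w : Fin (n + 1) → ℕ) : Fin (n + 2) → ℕ) (σ l)) i 0 =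
        fun l => (Fin.cons 0 (Fin.cons q w : Fin (n + 1) → ℕ) : Fin (n + 2) → ℕ) (σ l) := by
    intro w p q
    funext l
    by_cases hl : l = i
    · subst hl
      rw [Function.update_self, hσi, e0]
    · rw [Function.update_of_ne hl]
      have hl1 : σ l ≠ 0 := fun h => hl (σ.injective (h.trans hσi.symm))
      revert hl1
      generalize σ l = m
      intro hm
      refine Fin.cases ?_ (fun m' => ?_) m hm
      · intro h; exact absurd rfl h
      · intro _; rfl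
  have hin : ∀ w : Fin n → ℕ,
      ∑ p ∈ prm (X / ∏ i, w i), ∑ q ∈ prm (X / (∏ i, w i) / p),
        a (Function.update (fun l => (Fin.cons p (Fin.cons q w : Fin (n + 1) → ℕ) : Fin (n + 2) → ℕ) (σ l)) j 0) *
        b (Function.update (fun l => (Fin.cons p (Fin.cons q w : Fin (n + 1) → ℕ) : Fin (n + 2) → ℕ) (σ l)) i 0) *
        χ ((Fin.cons p (Fin.cons q w : Fin (n + 1) → ℕ) : Fin (n + 2) → ℕ) (σ i))
          ((Fin.cons p (Fin.cons q w : Fin (n + 1) → ℕ) : Fin (n + 2) → ℕ) (σ j) :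
            ZMod ((Fin.cons p (Fin.cons q w : Fin (n + 1) → ℕ) : Fin (n + 2) → ℕ) (σ i))) =
      BS (X / ∏ i, w i) χ (α w) (β w) := by
    intro w
    unfold BS
    refine Finset.sum_congr rfl fun p _ => Finset.sum_congr rfl fun q _ => ?_
    rw [ej, ei, hσi, hσj]
    rfl
  have hα1 : ∀ w p, ‖α w p‖ ≤ 1 := fun w p => ha _
  have hβ1 : ∀ w p, ‖β w p‖ ≤ 1 := fun w p => hb _
  have hχ1 : ∀ w p, p.Prime → α w p ≠ 0 → χ p ≠ 1 := by
    intro w p hp hne
    have h := hχ (fun l => (Fin.cons p (Fin.cons 0 w : Fin (n + 1) → ℕ) : Fin (n + 2) → ℕ) (σ l))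
    rw [ej] at h
    rw [hσi] at h
    exact h hp hne
  have hsum : ∑ w ∈ Tup n X, ∑ p ∈ prm (X / ∏ i, w i), ∑ q ∈ prm (X / (∏ i, w i) / p),
        a (Function.update (fun l => (Fin.cons p (Fin.cons q w : Fin (n + 1) → ℕ) : Fin (n + 2) → ℕ) (σ l)) j 0) *
        b (Function.update (fun l => (Fin.cons p (Fin.cons q w : Fin (n + 1) → ℕ) : Fin (n + 2) → ℕ) (σ l)) i 0) *
        χ ((Fin.cons p (Fin.cons q w : Fin (n + 1) → ℕ) : Fin (n + 2) → ℕ) (σ i))
          ((Fin.cons p (Fin.cons q w : Fin (n + 1) → ℕ) : Fin (n + 2) → ℕ) (σ j) :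
            ZMod ((Fin.cons p (Fin.cons q w : Fin (n + 1) → ℕ) : Fin (n + 2) → ℕ) (σ i))) =
      ∑ w ∈ Tup n X, BS (X / ∏ i, w i) χ (α w) (β w) := Finset.sum_congr rfl fun w _ => hin w
  refine (le_of_eq (congrArg norm hsum)).trans ?_
  -- every term
  have hterm : ∀ w ∈ Tup n X, ‖BS (X / ∏ i, w i) χ (α w) (β w)‖ ≤
      ε / (2 * C₁) * (if 16 ≤ X / ∏ i, w i then LL 1 (X / ∏ i, w i) else 0) + (Y₀ : ℝ) * Y₀ := by
    intro w _
    have hLL0 : 0 ≤ (if 16 ≤ X / ∏ i, w i then LL 1 (X / ∏ i, w i) else 0) := by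
      split_ifs with h
      · have h16 : (16 : ℝ) ≤ ((X / ∏ i, w i : ℕ) : ℝ) := by exact_mod_cast h
        have hlog : 1 ≤ Real.log ((X / ∏ i, w i : ℕ) : ℝ) := by
          rw [← Real.log_exp 1]
          exact Real.log_le_log (Real.exp_pos 1) (by linarith [Real.exp_one_lt_d9])
        unfold LL
        have := Real.log_nonneg hlog
        positivity
      · exact le_refl 0
    by_cases hY : Y₀ ≤ X / ∏ i, w i
    · have h16 : 16 ≤ X / ∏ i, w i := (le_max_right _ _).trans hY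
      rw [if_pos h16]
      have h := hY₁ (X / ∏ i, w i) ((le_max_left _ _).trans hY) χ (α w) (β w) (hα1 w) (hβ1 w) (hχ1 w)
      refine h.trans ?_
      have hy0 : (0 : ℝ) ≤ (Y₀ : ℝ) * Y₀ := by positivity
      unfold LL
      rw [pow_one]
      linarith
    · have hY' : X / ∏ i, w i ≤ Y₀ := (not_le.1 hY).le
      have hYr : ((X / ∏ i, w i : ℕ) : ℝ) ≤ Y₀ := by exact_mod_cast hY'
      have h := BB_trivial (X / ∏ i, w i) (fun p q => α w p * β w q * χ p (q : ZMod p)) (fun p q => by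
        rw [norm_mul, norm_mul]
        have h1 := hα1 w p
        have h2 := hβ1 w q
        have h3 := DirichletCharacter.norm_le_one (χ p) (q : ZMod p)
        calc ‖α w p‖ * ‖β w q‖ * ‖χ p (q : ZMod p)‖ ≤ 1 * 1 * 1 := by gcongr
          _ = 1 := by norm_num)
      have h' : ‖BS (X / ∏ i, w i) χ (α w) (β w)‖ ≤ ((X / ∏ i, w i : ℕ) : ℝ) * ((X / ∏ i, w i : ℕ) : ℝ) := h
      have hq : ((X / ∏ i, w i : ℕ) : ℝ) * ((X / ∏ i, w i : ℕ) : ℝ) ≤ (Y₀ : ℝ) * Y₀ := by gcongr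
      have : 0 ≤ ε / (2 * C₁) * (if 16 ≤ X / ∏ i, w i then LL 1 (X / ∏ i, w i) else 0) := by positivity
      linarith
  calc ‖∑ w ∈ Tup n X, BS (X / ∏ i, w i) χ (α w) (β w)‖
      ≤ ∑ w ∈ Tup n X, ‖BS (X / ∏ i, w i) χ (α w) (β w)‖ := norm_sum_le _ _
    _ ≤ ∑ w ∈ Tup n X, (ε / (2 * C₁) * (if 16 ≤ X / ∏ i, w i then LL 1 (X / ∏ i, w i) else 0) +
          (Y₀ : ℝ) * Y₀) := Finset.sum_le_sum hterm
    _ = ε / (2 * C₁) * (∑ w ∈ (Tup n X).filter (fun w => 16 ≤ X / ∏ i, w i), LL 1 (X / ∏ i, w i)) +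
          (Tup n X).card * ((Y₀ : ℝ) * Y₀) := by
        rw [Finset.sum_add_distrib, ← Finset.mul_sum, Finset.sum_const, nsmul_eq_mul, Finset.sum_filter]
    _ ≤ ε / (2 * C₁) * (C₁ * LL (n + 1) X) + (C₂ * LL n X) * ((Y₀ : ℝ) * Y₀) := by gcongr
    _ ≤ ε * LL (n + 1) X := by
        have hLn : 0 ≤ LL n X := by unfold LL; positivity
        have hLs : LL (n + 1) X = Real.log (Real.log X) * LL n X := by
          unfold LL
          rw [pow_succ]
          ring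
        have e : ε / (2 * C₁) * (C₁ * LL (n + 1) X) = ε / 2 * LL (n + 1) X := by
          field_simp
        rw [e]
        rw [div_le_iff₀ (by positivity)] at hll
        have : (C₂ * LL n X) * ((Y₀ : ℝ) * Y₀) ≤ ε / 2 * LL (n + 1) X := by
          rw [hLs]
          have := mul_le_mul_of_nonneg_right hll hLn
          linarith
        linarith

end Pool.Agent.AVM
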